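import Mathlib
import Pool.Agent.Helper849.TA.Stmts2

/-! Project H849-TILT, task ELIM: main theorem of elimination theory, with weights. -/

set_option autoImplicit false

namespace Pool.Agent.H996R3.TAElim

open MvPolynomial Pool.Agent.Helper849.TA

attribute [local instance] MvPolynomial.weightedGradedAlgebra MvPolynomial.gradedAlgebra

variable {F : Type} [Field F] {σ : Type} {m : ℕ}

/-- from `F[z,y]` to `F[z][y]` -/
noncomputable def psi : MvPolynomial (σ ⊕ Fin (m + 1)) F →ₐ[F]
    MvPolynomial (Fin (m + 1)) (MvPolynomial σ F) :=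
  aeval (Sum.elim (fun i => C (X i)) X)

/-- from `F[z][y]` to `F[z,y]` -/
noncomputable def phi : MvPolynomial (Fin (m + 1)) (MvPolynomial σ F) →+*
    MvPolynomial (σ ⊕ Fin (m + 1)) F :=
  eval₂Hom (rename Sum.inl : MvPolynomial σ F →ₐ[F] MvPolynomial (σ ⊕ Fin (m + 1)) F).toRingHom
    (fun j => X (Sum.inr j))

theorem phi_psi (p : MvPolynomial (σ ⊕ Fin (m + 1)) F) : phi (psi p) = p := by
  induction p using MvPolynomial.induction_on with
  | C a =>
    unfold psi phi
    rw [aeval_C]
    change eval₂Hom _ _ (C (C a)) = C a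
    rw [eval₂Hom_C]
    change rename Sum.inl (C a) = C a
    rw [rename_C]
  | add p q hp hq => rw [map_add, map_add, hp, hq]
  | mul_X p i hp =>
    rw [map_mul, map_mul, hp]
    congr 1
    unfold psi phi
    rw [aeval_X]
    cases i with
    | inl i =>
      change eval₂Hom _ _ (C (X i)) = X (Sum.inl i)
      rw [eval₂Hom_C]
      change rename Sum.inl (X i) = X (Sum.inl i)
      rw [rename_X]
    | inr j =>
      change eval₂Hom _ _ (X j) = X (Sum.inr j)
      rw [eval₂Hom_X']

theorem phi_monomial (β : Fin (m + 1) →₀ ℕ) (h : MvPolynomial σ F) :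
    phi (monomial β h) = rename Sum.inl h * rename Sum.inr (monomial β (1 : F)) := by
  unfold phi
  rw [eval₂Hom_monomial, rename_monomial]
  change rename Sum.inl h * _ = _
  congr 1
  rw [monomial_eq, C_1, one_mul, Finsupp.prod_mapDomain_index (by simp) (by
    intro b a c
    exact pow_add _ _ _)]

theorem eval_psi (z : σ → F) (y : Fin (m + 1) → F) (p : MvPolynomial (σ ⊕ Fin (m + 1)) F) :
    eval y (map (eval z) (psi p)) = eval (Sum.elim z y) p := by
  induction p using MvPolynomial.induction_on with
  | C a =>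
    unfold psi
    rw [aeval_C]
    change eval y (map (eval z) (C (C a))) = _
    rw [map_C, eval_C, eval_C, eval_C]
  | add p q hp hq => rw [map_add, map_add, map_add, map_add, hp, hq]
  | mul_X p i hp =>
    rw [map_mul, map_mul, map_mul, map_mul, hp]
    congr 1
    unfold psi
    rw [aeval_X]
    cases i with
    | inl i => simp
    | inr j => simp

theorem psi_homogeneous {p : MvPolynomial (σ ⊕ Fin (m + 1)) F} {b : ℕ}
    (hp : IsWeightedHomogeneous (Sum.elim (fun _ => 0) (fun _ => 1) : σ ⊕ Fin (m + 1) → ℕ) p b) :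
    (psi p).IsHomogeneous b := by
  rw [p.as_sum, map_sum]
  refine IsHomogeneous.sum _ _ _ fun s hs => ?_
  have hw := hp (mem_support_iff.1 hs)
  unfold psi
  rw [aeval_monomial]
  change IsHomogeneous (C (C (coeff s p)) * _) b
  rw [show b = 0 + b by omega]
  refine (isHomogeneous_C _ _).mul ?_
  rw [← hw, Finsupp.weight_apply]
  refine IsHomogeneous.prod _ _ _ fun i _ => ?_
  cases i with
  | inl i =>
    have h1 : ((C (X i) : MvPolynomial (Fin (m + 1)) (MvPolynomial σ F)) ^ s (Sum.inl i)) =
        C ((X i) ^ s (Sum.inl i)) := by rw [map_pow]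
    simp only [Sum.elim_inl, smul_zero]
    rw [h1]
    exact isHomogeneous_C _ _
  | inr j =>
    simp only [Sum.elim_inr, smul_eq_mul, mul_one]
    exact isHomogeneous_X_pow j _

theorem comp_mul {c q : MvPolynomial (Fin (m + 1)) F} {b L : ℕ} (hq : q.IsHomogeneous b) :
    homogeneousComponent L (c * q) =
      (if b ≤ L then homogeneousComponent (L - b) c else 0) * q := by
  have h1 := DirectSum.coe_decompose_mul_of_right_mem (homogeneousSubmodule (Fin (m + 1)) F)
    (a := c) (b := q) L (i := b) hq
  split_ifs at h1 ⊢ with h2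
  · have h3 : ∀ (p : MvPolynomial (Fin (m + 1)) F) (i : ℕ),
        (DirectSum.decompose (homogeneousSubmodule (Fin (m + 1)) F) p i :
          MvPolynomial (Fin (m + 1)) F) = homogeneousComponent i p := fun p i =>
      decomposition.decompose'_apply p i
    rw [h3, h3] at h1
    exact h1
  · have h3 : ∀ (p : MvPolynomial (Fin (m + 1)) F) (i : ℕ),
        (DirectSum.decompose (homogeneousSubmodule (Fin (m + 1)) F) p i :
          MvPolynomial (Fin (m + 1)) F) = homogeneousComponent i p := fun p i =>
      decomposition.decompose'_apply p i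
    rw [h3] at h1
    rw [h1, zero_mul]

theorem naka [IsAlgClosed F] {ι : Type} [Fintype ι]
    (r : ι → MvPolynomial (Fin (m + 1)) (MvPolynomial σ F)) (b : ι → ℕ)
    (hr : ∀ j, (r j).IsHomogeneous (b j)) (z : σ → F)
    (h0 : ∀ y : Fin (m + 1) → F, (∀ j, eval y (map (eval z) (r j)) = 0) → y = 0) :
    ∃ (L : ℕ) (hh : MvPolynomial σ F), eval z hh = 1 ∧
      ∀ β : Fin (m + 1) →₀ ℕ, β.degree = L → monomial β hh ∈ Ideal.span (Set.range r) := by
  classical
  let r0 : ι → MvPolynomial (Fin (m + 1)) F := fun j => map (eval z) (r j)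
  have hr0 : ∀ j, (r0 j).IsHomogeneous (b j) := fun j => (hr j).map _
  let J : Ideal (MvPolynomial (Fin (m + 1)) F) := Ideal.span (Set.range r0)
  have hrad : ∀ j : Fin (m + 1), ∃ n : ℕ, (X j : MvPolynomial (Fin (m + 1)) F) ^ n ∈ J := by
    intro j
    have h1 : (X j : MvPolynomial (Fin (m + 1)) F) ∈ J.radical := by
      rw [← vanishingIdeal_zeroLocus_eq_radical (K := F) J]
      intro y hy
      have h2 : y = 0 := by
        apply h0
        intro i
        have h3 := hy (r0 i) (Ideal.subset_span ⟨i, rfl⟩)
        rwa [aeval_eq_eval] at h3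
      rw [h2, aeval_X]
      rfl
    exact h1
  choose n hn using hrad
  obtain ⟨L, hL⟩ : ∃ L : ℕ, L = ∑ j, n j := ⟨_, rfl⟩
  have hmon : ∀ β : Fin (m + 1) →₀ ℕ, β.degree = L →
      (monomial β (1 : F) : MvPolynomial (Fin (m + 1)) F) ∈ J := by
    intro β hβ
    obtain ⟨j, hj⟩ : ∃ j, n j ≤ β j := by
      by_contra hc
      push Not at hc
      have h1 : ∑ j, β j < ∑ j, n j :=
        Finset.sum_lt_sum_of_nonempty Finset.univ_nonempty fun j _ => hc j
      rw [Finsupp.degree_eq_sum] at hβ
      omega
    have h2 : (monomial β (1 : F) : MvPolynomial (Fin (m + 1)) F) =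
        monomial (β - Finsupp.single j (n j)) 1 * X j ^ n j := by
      rw [X_pow_eq_monomial, monomial_mul, one_mul]
      congr 1
      rw [tsub_add_cancel_of_le]
      rw [Finsupp.single_le_iff]
      exact hj
    rw [h2]
    exact J.mul_mem_left _ (hn j)
  -- the relations
  have hrel : ∀ β : Fin (m + 1) →₀ ℕ, β.degree = L →
      ∃ D : MvPolynomial (Fin (m + 1)) (MvPolynomial σ F), D.IsHomogeneous L ∧
        map (eval z) D = 0 ∧ monomial β (1 : MvPolynomial σ F) - D ∈ Ideal.span (Set.range r) := by
    intro β hβ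
    obtain ⟨c, hc⟩ := (Ideal.mem_span_range_iff_exists_fun).1 (hmon β hβ)
    let c' : ι → MvPolynomial (Fin (m + 1)) F := fun j =>
      if b j ≤ L then homogeneousComponent (L - b j) (c j) else 0
    have hc' : ∑ j, c' j * r0 j = monomial β 1 := by
      have h1 := congrArg (homogeneousComponent L) hc
      rw [map_sum] at h1
      have h2 : homogeneousComponent L (monomial β (1 : F)) = monomial β 1 := by
        rw [homogeneousComponent_of_mem (isHomogeneous_monomial (1 : F) hβ), if_pos rfl]
      rw [h2] at h1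
      rw [← h1]
      exact Finset.sum_congr rfl fun j _ => (comp_mul (hr0 j)).symm
    refine ⟨monomial β 1 - ∑ j, map C (c' j) * r j, ?_, ?_, ?_⟩
    · refine IsHomogeneous.sub (isHomogeneous_monomial _ hβ) ?_
      refine IsHomogeneous.sum _ _ _ fun j _ => ?_
      by_cases hb : b j ≤ L
      · have h3 : c' j = homogeneousComponent (L - b j) (c j) := if_pos hb
        rw [h3, show L = (L - b j) + b j by omega]
        refine IsHomogeneous.mul ?_ (hr j)
        have h4 := (homogeneousComponent_isHomogeneous (L - b j) (c j)).map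
          (C : F →+* MvPolynomial σ F)
        rwa [show L - b j + b j - b j = L - b j by omega]
      · have h3 : c' j = 0 := if_neg hb
        rw [h3, map_zero, zero_mul]
        exact isHomogeneous_zero _ _ _
    · rw [map_sub, map_sum, map_monomial, map_one, sub_eq_zero, ← hc']
      refine Finset.sum_congr rfl fun j _ => ?_
      rw [map_mul, map_map]
      congr 1
      have h5 : (eval z).comp (C : F →+* MvPolynomial σ F) = RingHom.id F := by
        ext x
        simp
      rw [h5, map_id]
    · rw [sub_sub_cancel]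
      exact Ideal.sum_mem _ fun j _ => Ideal.mul_mem_left _ _ (Ideal.subset_span ⟨j, rfl⟩)
  -- Nakayama
  let I := Ideal.span (Set.range r)
  let 𝔪 : Ideal (MvPolynomial σ F) := RingHom.ker (eval z)
  let g : (Fin (m + 1) →₀ ℕ) → (MvPolynomial (Fin (m + 1)) (MvPolynomial σ F) ⧸ I) := fun β =>
    Ideal.Quotient.mk I (monomial β 1)
  let N : Submodule (MvPolynomial σ F) (MvPolynomial (Fin (m + 1)) (MvPolynomial σ F) ⧸ I) :=
    Submodule.span _ (g '' {β | β.degree = L})
  have hfin : {β : Fin (m + 1) →₀ ℕ | β.degree = L}.Finite :=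
    (Finsupp.finite_of_degree_le L).subset fun β hβ => le_of_eq hβ
  have hFG : N.FG := Submodule.fg_span (hfin.image g)
  have hsm : ∀ (a : MvPolynomial σ F) (β : Fin (m + 1) →₀ ℕ),
      a • g β = Ideal.Quotient.mk I (monomial β a) := by
    intro a β
    have h1 : a • g β = Ideal.Quotient.mk I (a • monomial β (1 : MvPolynomial σ F)) := rfl
    rw [h1, smul_monomial, smul_eq_mul, mul_one]
  have hle : N ≤ 𝔪 • N := by
    refine Submodule.span_le.2 ?_
    rintro _ ⟨β, hβ, rfl⟩
    obtain ⟨D, hD1, hD2, hD3⟩ := hrel β hβ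
    have h1 : g β = Ideal.Quotient.mk I D := by
      change Ideal.Quotient.mk I (monomial β 1) = _
      rw [Ideal.Quotient.eq]
      exact hD3
    have h2 : g β = ∑ γ ∈ D.support, coeff γ D • g γ := by
      rw [h1]
      conv_lhs => rw [D.as_sum]
      rw [map_sum]
      exact Finset.sum_congr rfl fun γ _ => (hsm _ _).symm
    rw [SetLike.mem_coe, h2]
    refine Submodule.sum_mem _ fun γ hγ => ?_
    refine Submodule.smul_mem_smul ?_ (Submodule.subset_span ⟨γ, ?_, rfl⟩)
    · rw [RingHom.mem_ker]
      have h3 := congrArg (coeff γ) hD2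
      rwa [coeff_map, coeff_zero] at h3
    · have h4 := hD1 (mem_support_iff.1 hγ)
      rw [Set.mem_ofPred_eq, ← h4]
      rw [Finsupp.degree_eq_weight_one]
      rfl
  obtain ⟨hh, hh1, hh2⟩ :=
    Submodule.exists_sub_one_mem_and_smul_eq_zero_of_fg_of_le_smul 𝔪 N hFG hle
  refine ⟨L, hh, ?_, fun β hβ => ?_⟩
  · rw [RingHom.mem_ker, map_sub, map_one, sub_eq_zero] at hh1
    exact hh1
  · have h1 := hh2 (g β) (Submodule.subset_span ⟨β, hβ, rfl⟩)
    rw [hsm] at h1
    exact Ideal.Quotient.eq_zero_iff_mem.1 h1

theorem comp_rename (w : σ → ℕ) (v : Fin (m + 1) → ℕ) (β : Fin (m + 1) →₀ ℕ) (k e : ℕ)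
    (he : e = Finsupp.weight (Sum.elim w v) (β.mapDomain Sum.inr)) (h : MvPolynomial σ F) :
    weightedHomogeneousComponent (Sum.elim w v) (k + e)
      (rename Sum.inl h * rename Sum.inr (monomial β (1 : F))) =
    rename Sum.inl (weightedHomogeneousComponent w k h) * rename Sum.inr (monomial β (1 : F)) := by
  induction h using MvPolynomial.induction_on' with
  | monomial s c =>
    rw [rename_monomial, rename_monomial, monomial_mul, mul_one]
    have h1 : Finsupp.weight (Sum.elim w v) (s.mapDomain Sum.inl + β.mapDomain Sum.inr) =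
        Finsupp.weight w s + e := by
      rw [map_add, ← he]
      congr 1
      rw [Finsupp.weight_apply, Finsupp.weight_apply, Finsupp.sum_mapDomain_index (by simp) (by
        intro b a c
        exact add_smul _ _ _)]
      rfl
    have h2 : IsWeightedHomogeneous (Sum.elim w v)
        (monomial (s.mapDomain Sum.inl + β.mapDomain Sum.inr) c) (Finsupp.weight w s + e) :=
      isWeightedHomogeneous_monomial _ _ _ h1
    have h3 : IsWeightedHomogeneous w (monomial s c) (Finsupp.weight w s) :=
      isWeightedHomogeneous_monomial _ _ _ rfl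
    by_cases hk : k = Finsupp.weight w s
    · rw [hk, h2.weightedHomogeneousComponent_same, h3.weightedHomogeneousComponent_same,
        rename_monomial, monomial_mul, mul_one]
    · rw [h2.weightedHomogeneousComponent_ne (k + e) (by omega),
        h3.weightedHomogeneousComponent_ne k (by omega), map_zero, zero_mul]
  | add p q hp hq =>
    rw [map_add, add_mul, map_add, hp, hq, map_add, map_add, add_mul]

theorem taskElim : TaskElim := by
  intro F _ _ σ _ w m v ι _ r a b hra hrb
  let I : Ideal (MvPolynomial (σ ⊕ Fin (m + 1)) F) := Ideal.span (Set.range r)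
  refine ⟨{h | (∃ k, IsWeightedHomogeneous w h k) ∧ ∃ L : ℕ, ∀ β : Fin (m + 1) →₀ ℕ,
    β.degree = L → rename Sum.inl h * rename Sum.inr (monomial β (1 : F)) ∈ I},
    fun h hh => hh.1, fun z => ⟨?_, ?_⟩⟩
  · intro hS
    by_contra hc
    push Not at hc
    obtain ⟨L, hh, hh1, hh2⟩ := naka (fun j => psi (r j)) b (fun j => psi_homogeneous (hrb j)) z (by
      intro y hy
      by_contra hy0
      obtain ⟨j, hj⟩ := hc y hy0
      apply hj
      rw [← eval_psi]
      exact hy j)
    have hI : ∀ β : Fin (m + 1) →₀ ℕ, β.degree = L →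
        rename Sum.inl hh * rename Sum.inr (monomial β (1 : F)) ∈ I := by
      intro β hβ
      rw [← phi_monomial]
      have h1 : Ideal.span (Set.range fun j => psi (r j)) ≤ I.comap phi := by
        refine Ideal.span_le.2 ?_
        rintro _ ⟨j, rfl⟩
        change phi (psi (r j)) ∈ I
        rw [phi_psi]
        exact Ideal.subset_span ⟨j, rfl⟩
      exact h1 (hh2 β hβ)
    have hhom : I.IsHomogeneous (weightedHomogeneousSubmodule F (Sum.elim w v)) :=
      Ideal.homogeneous_span _ _ (by
        rintro _ ⟨j, rfl⟩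
        exact ⟨a j, hra j⟩)
    have hcomp : ∀ k, eval z (weightedHomogeneousComponent w k hh) = 0 := by
      intro k
      apply hS
      refine ⟨⟨k, weightedHomogeneousComponent_isWeightedHomogeneous _ _⟩, L, fun β hβ => ?_⟩
      rw [← comp_rename w v β k _ rfl hh]
      exact weightedHomogeneousComponent_mem_of_mem F (Sum.elim w v) hhom (hI β hβ) _
    have hsum := finsum_weightedHomogeneousComponent w hh
    have h2 : eval z hh = 0 := by
      rw [← hsum]
      have h3 := (eval z).toAddMonoidHom.map_finsum (f := fun k => weightedHomogeneousComponent w k hh)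
        (weightedHomogeneousComponent_finsupp hh)
      refine h3.trans ?_
      rw [finsum_eq_zero_of_forall_eq_zero]
      exact hcomp
    rw [h2] at hh1
    exact zero_ne_one hh1
  · rintro ⟨y, hy0, hy⟩ h ⟨-, L, hL⟩
    obtain ⟨j, hj⟩ := Function.ne_iff.1 hy0
    have h1 := hL (Finsupp.single j L) (by rw [Finsupp.degree_single])
    have h2 : I ≤ RingHom.ker (eval (Sum.elim z y)) := by
      refine Ideal.span_le.2 ?_
      rintro _ ⟨i, rfl⟩
      exact hy i
    have h3 := h2 h1
    rw [RingHom.mem_ker, map_mul, eval_rename, eval_rename, Sum.elim_comp_inl,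
      Sum.elim_comp_inr, eval_monomial] at h3
    have h4 : ((Finsupp.single j L).prod fun n e => y n ^ e) ≠ 0 := by
      rw [Finsupp.prod_single_index (h := fun n e => y n ^ e) (pow_zero _)]
      exact pow_ne_zero _ hj
    rw [one_mul] at h3
    exact (mul_eq_zero.1 h3).resolve_right h4

end Pool.Agent.H996R3.TAElim
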